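import Pool.Agent.Helper52.SG.Goals3

/-!
# Packet SG-KH (project SG, MP_0a002a_al)
-/

set_option autoImplicit false

namespace Pool.Agent.Helper71.SG.KH

open Pool.Agent.Helper52.SG

section

variable {N : Type} [LieRing N]

/-- the Lie ring `[N, N]` -/
@[reducible] def lieRingBr : LieRing (br ⊤ ⊤ : AddSubgroup N) where
  bracket x y := ⟨⁅(x : N), (y : N)⁆, mem_br trivial trivial⟩
  add_lie x y z := Subtype.ext (add_lie (x : N) (y : N) (z : N))
  lie_add x y z := Subtype.ext (lie_add (x : N) (y : N) (z : N))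
  lie_self x := Subtype.ext (lie_self (x : N))
  leibniz_lie x y z := Subtype.ext (leibniz_lie (x : N) (y : N) (z : N))

variable {N' : Type} [LieRing N'] (ι : N' →+ N) (hι : ∀ x y, ι ⁅x, y⁆ = ⁅ι x, ι y⁆)

include hι in
theorem map_br (A B : AddSubgroup N') : (br A B).map ι = br (A.map ι) (B.map ι) := by
  apply le_antisymm
  · rw [AddSubgroup.map_le_iff_le_comap]
    refine br_le fun a ha b hb => ?_
    rw [AddSubgroup.mem_comap, hι]
    exact mem_br ⟨a, ha, rfl⟩ ⟨b, hb, rfl⟩
  · apply br_le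
    rintro _ ⟨a, ha, rfl⟩ _ ⟨b, hb, rfl⟩
    exact ⟨⁅a, b⁆, mem_br ha hb, hι a b⟩

include hι in
theorem map_LI (A : AddSubgroup N') (n : ℕ) : (LI A n).map ι = LI (A.map ι) n := by
  induction n with
  | zero => rfl
  | succ n ih =>
    show (br (LI A n) A).map ι = br (LI (A.map ι) n) (A.map ι)
    rw [map_br ι hι, ih]

include hι in
theorem map_DW {p : ℕ} (W : ZMod p → AddSubgroup N') :
    (fun c => (DW W c).map ι) = DW (fun c => (W c).map ι) := by
  funext c
  show (⨆ a, br (W a) (W (c - a))).map ι = ⨆ a, br ((W a).map ι) ((W (c - a)).map ι)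
  rw [AddSubgroup.map_iSup]
  exact iSup_congr fun a => map_br ι hι _ _

include hι in
theorem map_DW_iter {p : ℕ} (s : ℕ) : ∀ (W : ZMod p → AddSubgroup N'),
    (fun c => ((DW^[s] W) c).map ι) = DW^[s] (fun c => (W c).map ι) := by
  induction s with
  | zero => intro W; rfl
  | succ s ih =>
    intro W
    rw [Function.iterate_succ_apply, Function.iterate_succ_apply, ih, map_DW ι hι]

theorem iSup_DW {p : ℕ} (W : ZMod p → AddSubgroup N) (h : (⨆ i, W i) = ⊤) :
    (⨆ c, DW W c) = br ⊤ ⊤ := by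
  apply le_antisymm
  · exact iSup_le fun c => iSup_le fun a => br_mono le_top le_top
  · apply br_le
    intro a _ b _
    have ha : a ∈ ⨆ i, W i := by rw [h]; trivial
    have hb : b ∈ ⨆ i, W i := by rw [h]; trivial
    refine AddSubgroup.iSup_induction (C := fun a => ⁅a, b⁆ ∈ ⨆ c, DW W c) W ha ?_ ?_ ?_
    · intro i x hx
      refine AddSubgroup.iSup_induction (C := fun b => ⁅x, b⁆ ∈ ⨆ c, DW W c) W hb ?_ ?_ ?_
      · intro j y hy
        exact AddSubgroup.mem_iSup_of_mem (i + j) (mem_DW hx hy)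
      · rw [lie_zero]
        exact zero_mem _
      · intro y z hy hz
        rw [lie_add]
        exact add_mem hy hz
    · rw [zero_lie]
      exact zero_mem _
    · intro y z hy hz
      rw [add_lie]
      exact add_mem hy hz

end

theorem main (hMET : S_MET) (hHALL : S_HALL) (p : ℕ) [Fact p.Prime] (s : ℕ) :
    ∀ (N : Type) [LieRing N] (W : ZMod p → AddSubgroup N),
    GrF W → (⨆ i, W i) = ⊤ → (∀ c, (DW^[s] W) c = ⊥) →
    ∃ n : ℕ, LI (⊤ : AddSubgroup N) n = ⊥ := by
  induction s with
  | zero =>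
    intro N _ W _ h hs
    refine ⟨0, ?_⟩
    show (⊤ : AddSubgroup N) = ⊥
    rw [← h]
    exact (iSup_congr hs).trans iSup_bot
  | succ s ih =>
    intro N _ W hW h hs
    letI := lieRingBr (N := N)
    let ι : (br ⊤ ⊤ : AddSubgroup N) →+ N := (br ⊤ ⊤ : AddSubgroup N).subtype
    have hι : ∀ x y, ι ⁅x, y⁆ = ⁅ι x, ι y⁆ := fun x y => rfl
    have hinj : Function.Injective ι := Subtype.val_injective
    have hr : ι.range = br ⊤ ⊤ := AddSubgroup.range_subtype _
    let W' : ZMod p → AddSubgroup (br ⊤ ⊤ : AddSubgroup N) := fun c => (DW W c).comap ι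
    have hW' : ∀ c, (W' c).map ι = DW W c := by
      intro c
      apply AddSubgroup.map_comap_eq_self
      rw [hr, ← iSup_DW W h]
      exact le_iSup (DW W) c
    have hG := hW.DW
    have hG' : GrF W' := by
      constructor
      · rw [eq_bot_iff]
        intro x hx
        have h1 : ι x ∈ DW W 0 := hx
        rw [hG.zero, AddSubgroup.mem_bot] at h1
        rw [AddSubgroup.mem_bot]
        exact hinj (h1.trans (map_zero ι).symm)
      · intro i j x hx y hy
        show ι ⁅x, y⁆ ∈ DW W (i + j)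
        rw [hι]
        exact hG.mul i j _ hx _ hy
    have hS : (⨆ i, W' i) = ⊤ := by
      apply AddSubgroup.map_injective hinj
      rw [AddSubgroup.map_iSup, iSup_congr hW', iSup_DW W h, ← AddMonoidHom.range_eq_map, hr]
    have hs' : ∀ c, (DW^[s] W') c = ⊥ := by
      intro c
      apply AddSubgroup.map_injective hinj
      have h1 := congrFun (map_DW_iter ι hι s W') c
      have h2 : (fun c => (W' c).map ι) = DW W := funext hW'
      rw [h2, ← Function.iterate_succ_apply, hs c] at h1
      rw [AddSubgroup.map_bot]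
      exact h1
    obtain ⟨d, hd⟩ := ih _ W' hG' hS hs'
    have h3 := map_LI ι hι ⊤ d
    rw [hd, AddSubgroup.map_bot, ← AddMonoidHom.range_eq_map, hr] at h3
    exact hHALL N (p - 1) d (hMET p N W hW h) h3.symm

theorem t (hKREK : S_KREK) (hMET : S_MET) (hHALL : S_HALL) : Pool.Agent.Helper52.SG.S_KH := by
  intro p _ N _ W hW h
  obtain ⟨s, hs⟩ := hKREK p N W hW
  exact main hMET hHALL p s N W hW h hs

end Pool.Agent.Helper71.SG.KH
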