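import Pool.Agent.Helper52.SG.Goals

/-!
# Packet SG-COR (project SG, MP_0a002a_al)
-/

set_option autoImplicit false

namespace Pool.Agent.Helper71.SG.COR

open Subgroup Pool.H83Shunkov Pool.Agent.Helper29.SH Pool.Agent.Helper52.SG

theorem finiteIndex_cent {G : Type} [Group G] (a : G) (L : Subgroup G) (hN : L.Normal)
    (hL : (L : Set G).Finite) (ha : a ∈ L) : (centralizer ({a} : Set G)).FiniteIndex := by
  haveI : Finite L := hL
  let f : G ⧸ centralizer ({a} : Set G) → L := fun q => Quotient.liftOn' q
    (fun g => (⟨g * a * g⁻¹, hN.conj_mem a ha g⟩ : L)) (by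
      intro g h hgh
      rw [QuotientGroup.leftRel_apply, mem_centralizer_singleton_iff] at hgh
      apply Subtype.ext
      show g * a * g⁻¹ = h * a * h⁻¹
      calc g * a * g⁻¹ = g * (a * (g⁻¹ * h)) * h⁻¹ := by group
        _ = g * (g⁻¹ * h * a) * h⁻¹ := by rw [hgh]
        _ = h * a * h⁻¹ := by group)
  have hf : Function.Injective f := by
    intro q q'
    induction q using QuotientGroup.induction_on with
    | H g =>
      induction q' using QuotientGroup.induction_on with
      | H h =>
        intro hgh
        have h1 : g * a * g⁻¹ = h * a * h⁻¹ := congrArg Subtype.val hgh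
        rw [QuotientGroup.eq, mem_centralizer_singleton_iff]
        calc g⁻¹ * h * a = g⁻¹ * (h * a * h⁻¹) * h := by group
          _ = g⁻¹ * (g * a * g⁻¹) * h := by rw [h1]
          _ = a * (g⁻¹ * h) := by group
  haveI : Finite (G ⧸ centralizer ({a} : Set G)) := Finite.of_injective f hf
  exact finiteIndex_of_finite_quotient

theorem t (hFIT : Pool.Agent.Helper52.SG.S_FIT) (hMAIN : Pool.Agent.Helper52.SG.S_MAIN) :
    Pool.Agent.Helper52.SG.S_COR := by
  intro G _ a hS hInf hLG hp h2 htor
  by_contra hn
  have st : St a (orderOf a) := ⟨hS, hp, rfl, htor, hn⟩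
  have hL := hMAIN G a (orderOf a) st h2 hLG
  have haL : a ∈ normalClosure ({a} : Set G) := subset_normalClosure rfl
  have hfin : ((normalClosure ({a} : Set G) : Subgroup G) : Set G).Finite := by
    by_contra hinf
    exact hn ⟨_, haL, hinf, hL⟩
  have hC := finiteIndex_cent a _ normalClosure_normal hfin haL
  exact hInf (hFIT G hS _ hC htor).1

end Pool.Agent.Helper71.SG.COR
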