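import Pool.Agent.Helper52.SG.Goals2

/-!
# Packet SG-MC5 (project SG, MP_0a002a_al)
-/

set_option autoImplicit false

namespace Pool.Agent.Helper71.SG.MC5

open Subgroup Pool.H83Shunkov Pool.Agent.Helper29.SH Pool.Agent.Helper52.SG

section aux

variable {G : Type} [Group G]

/-- the subgroup of elements `z` of `ZS T` with `z^r = 1` -/
def VV (r : ℕ) (T : Subgroup G) : Subgroup G where
  carrier := {z | z ∈ ZS T ∧ z ^ r = 1}
  one_mem' := ⟨one_mem _, one_pow _⟩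
  mul_mem' := by
    rintro a b ⟨ha, ha'⟩ ⟨hb, hb'⟩
    refine ⟨mul_mem ha hb, ?_⟩
    have hc : Commute a b := by
      have h1 := (mem_inf.1 hb).2
      rw [mem_centralizer_iff] at h1
      exact h1 a (mem_inf.1 ha).1
    rw [hc.mul_pow, ha', hb', one_mul]
  inv_mem' := by
    rintro a ⟨ha, ha'⟩
    refine ⟨inv_mem ha, ?_⟩
    rw [_root_.inv_pow, ha', inv_one]

theorem mem_VV {r : ℕ} {T : Subgroup G} {z : G} : z ∈ VV r T ↔ z ∈ ZS T ∧ z ^ r = 1 := Iff.rfl

theorem mem_ZS {T : Subgroup G} {z : G} : z ∈ ZS T ↔ z ∈ T ∧ ∀ t ∈ T, t * z = z * t := by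
  unfold ZS
  rw [mem_inf, mem_centralizer_iff]
  rfl

theorem ZS_normal {T : Subgroup G} (hT : T.Normal) : (ZS T).Normal := by
  refine ⟨fun z hz g => ?_⟩
  rw [mem_ZS] at hz ⊢
  refine ⟨hT.conj_mem z hz.1 g, fun t ht => ?_⟩
  have h1 := hz.2 (g⁻¹ * t * g) (by
    have := hT.conj_mem t ht g⁻¹
    rwa [inv_inv] at this)
  calc t * (g * z * g⁻¹) = g * (g⁻¹ * t * g * z) * g⁻¹ := by group
    _ = g * (z * (g⁻¹ * t * g)) * g⁻¹ := by rw [h1]
    _ = g * z * g⁻¹ * t := by group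

theorem VV_normal {T : Subgroup G} (hT : T.Normal) (r : ℕ) : (VV r T).Normal := by
  refine ⟨fun z hz g => ?_⟩
  rw [mem_VV] at hz ⊢
  refine ⟨(ZS_normal hT).conj_mem z hz.1 g, ?_⟩
  rw [conj_pow, hz.2]
  group

/-- the product of two commuting elementary abelian groups: `|W| |B| ≤ |U| |W ⊓ B|` -/
theorem prod_EA [Finite G] {r : ℕ} {W B : Subgroup G} (hW : EA r W) (hB : EA r B)
    (hc : ∀ w ∈ W, ∀ b ∈ B, w * b = b * w) {P : Subgroup G} (hWP : W ≤ P) (hBP : B ≤ P) :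
    ∃ U : Subgroup G, U ≤ P ∧ EA r U ∧
      Nat.card W * Nat.card B ≤ Nat.card U * Nat.card (W ⊓ B : Subgroup G) := by
  let φ : W × B →* G := MonoidHom.noncommCoprod W.subtype B.subtype
    (fun w b => hc w w.2 b b.2)
  have hφ : ∀ x : W × B, φ x = (x.1 : G) * (x.2 : G) := fun x => rfl
  refine ⟨φ.range, ?_, ⟨?_, ?_⟩, ?_⟩
  · rintro _ ⟨x, rfl⟩
    rw [hφ]
    exact mul_mem (hWP x.1.2) (hBP x.2.2)
  · rintro _ ⟨x, rfl⟩
    rw [hφ]
    have h1 : Commute (x.1 : G) (x.2 : G) := hc _ x.1.2 _ x.2.2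
    rw [h1.mul_pow, hW.1 _ x.1.2, hB.1 _ x.2.2, one_mul]
  · rintro _ ⟨x, rfl⟩ _ ⟨y, rfl⟩
    rw [hφ, hφ]
    have h1 : (x.2 : G) * (y.1 : G) = (y.1 : G) * (x.2 : G) := (hc _ y.1.2 _ x.2.2).symm
    have h2 : (y.2 : G) * (x.1 : G) = (x.1 : G) * (y.2 : G) := (hc _ x.1.2 _ y.2.2).symm
    have h3 : (x.1 : G) * (y.1 : G) = (y.1 : G) * (x.1 : G) := hW.2 _ x.1.2 _ y.1.2
    have h4 : (x.2 : G) * (y.2 : G) = (y.2 : G) * (x.2 : G) := hB.2 _ x.2.2 _ y.2.2
    calc (x.1 : G) * (x.2 : G) * ((y.1 : G) * (y.2 : G))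
        = (x.1 : G) * ((x.2 : G) * (y.1 : G)) * (y.2 : G) := by group
      _ = (x.1 : G) * (y.1 : G) * ((x.2 : G) * (y.2 : G)) := by rw [h1]; group
      _ = (y.1 : G) * (x.1 : G) * ((y.2 : G) * (x.2 : G)) := by rw [h3, h4]
      _ = (y.1 : G) * ((x.1 : G) * (y.2 : G)) * (x.2 : G) := by group
      _ = (y.1 : G) * ((y.2 : G) * (x.1 : G)) * (x.2 : G) := by rw [h2]
      _ = (y.1 : G) * (y.2 : G) * ((x.1 : G) * (x.2 : G)) := by group
  · have h1 : Nat.card φ.ker * φ.ker.index = Nat.card (W × B) := card_mul_index _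
    rw [index_ker, Nat.card_prod] at h1
    rw [← h1, mul_comm]
    apply Nat.mul_le_mul_left
    have hk : ∀ x : φ.ker, ((x : W × B).1 : G) ∈ (W ⊓ B : Subgroup G) := by
      intro x
      have h2 : φ x = 1 := x.2
      rw [hφ] at h2
      refine mem_inf.2 ⟨(x : W × B).1.2, ?_⟩
      rw [eq_inv_of_mul_eq_one_left h2]
      exact inv_mem (x : W × B).2.2
    apply Nat.card_le_card_of_injective (fun x : φ.ker => (⟨_, hk x⟩ : (W ⊓ B : Subgroup G)))
    intro x y hxy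
    have h2 : ((x : W × B).1 : G) = ((y : W × B).1 : G) :=
      congrArg (fun z : (W ⊓ B : Subgroup G) => (z : G)) hxy
    have hx : φ x = 1 := x.2
    have hy : φ y = 1 := y.2
    rw [hφ] at hx hy
    apply Subtype.ext
    apply Prod.ext
    · exact Subtype.ext h2
    · apply Subtype.ext
      have e1 := eq_inv_of_mul_eq_one_right hx
      have e2 := eq_inv_of_mul_eq_one_right hy
      rw [e1, e2, h2]

/-- the subgroup `D` -/
def DD {P T K : Subgroup G} (hT : T.Normal) : Subgroup G where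
  carrier := {g | g ∈ P ∧ ∀ k ∈ K, g⁻¹ * (k⁻¹ * g * k) ∈ T}
  one_mem' := ⟨one_mem _, fun k _ => by
    have : (1 : G)⁻¹ * (k⁻¹ * 1 * k) = 1 := by group
    rw [this]
    exact one_mem _⟩
  mul_mem' := by
    rintro a b ⟨ha, ha'⟩ ⟨hb, hb'⟩
    refine ⟨mul_mem ha hb, fun k hk => ?_⟩
    have e : (a * b)⁻¹ * (k⁻¹ * (a * b) * k) =
        b⁻¹ * (a⁻¹ * (k⁻¹ * a * k)) * b⁻¹⁻¹ * (b⁻¹ * (k⁻¹ * b * k)) := by group
    rw [e]
    exact mul_mem (hT.conj_mem _ (ha' k hk) _) (hb' k hk)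
  inv_mem' := by
    rintro a ⟨ha, ha'⟩
    refine ⟨inv_mem ha, fun k hk => ?_⟩
    have e : a⁻¹⁻¹ * (k⁻¹ * a⁻¹ * k) = a * (a⁻¹ * (k⁻¹ * a * k))⁻¹ * a⁻¹ := by group
    rw [e]
    exact hT.conj_mem _ (inv_mem (ha' k hk)) _

theorem mem_DD {P T K : Subgroup G} {hT : T.Normal} {g : G} :
    g ∈ DD (P := P) (K := K) hT ↔ g ∈ P ∧ ∀ k ∈ K, g⁻¹ * (k⁻¹ * g * k) ∈ T := Iff.rfl

theorem T_le_DD {P T K : Subgroup G} (hT : T.Normal) (hTP : T ≤ P) :
    T ≤ DD (P := P) (K := K) hT := by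
  intro t ht
  rw [mem_DD]
  refine ⟨hTP ht, fun k _ => mul_mem (inv_mem ht) ?_⟩
  have := hT.conj_mem t ht k⁻¹
  rwa [inv_inv] at this

theorem DD_normal {P T K : Subgroup G} (hT : T.Normal) (hTP : T ≤ P) (hK : K.Normal)
    (h : K ⊔ P = ⊤) : (DD (P := P) (K := K) hT).Normal := by
  have hK1 : ∀ k ∈ K, ∀ g ∈ DD (P := P) (K := K) hT, k * g * k⁻¹ ∈ DD (P := P) (K := K) hT := by
    intro k hk g hg
    have e : k * g * k⁻¹ = g * (g⁻¹ * (k⁻¹⁻¹ * g * k⁻¹)) := by group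
    rw [e]
    exact mul_mem hg (T_le_DD hT hTP ((mem_DD.1 hg).2 k⁻¹ (inv_mem hk)))
  have hP1 : ∀ p ∈ P, ∀ g ∈ DD (P := P) (K := K) hT, p * g * p⁻¹ ∈ DD (P := P) (K := K) hT := by
    intro p hp g hg
    rw [mem_DD] at hg ⊢
    refine ⟨mul_mem (mul_mem hp hg.1) (inv_mem hp), fun k hk => ?_⟩
    have e : (p * g * p⁻¹)⁻¹ * (k⁻¹ * (p * g * p⁻¹) * k) =
        p * (g⁻¹ * ((p⁻¹ * k * p)⁻¹ * g * (p⁻¹ * k * p))) * p⁻¹ := by group
    rw [e]
    refine hT.conj_mem _ (hg.2 _ ?_) _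
    have := hK.conj_mem k hk p⁻¹
    rwa [inv_inv] at this
  have key : ∀ (L : Subgroup G), (∀ p ∈ L, ∀ g ∈ DD (P := P) (K := K) hT,
      p * g * p⁻¹ ∈ DD (P := P) (K := K) hT) →
      L ≤ normalizer ((DD (P := P) (K := K) hT : Subgroup G) : Set G) := by
    intro L hL p hp
    rw [Subgroup.mem_normalizer_iff]
    intro x
    constructor
    · exact fun hx => hL p hp x hx
    · intro hx
      have h1 := hL p⁻¹ (inv_mem hp) _ hx
      have e : p⁻¹ * (p * x * p⁻¹) * p⁻¹⁻¹ = x := by group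
      rwa [e] at h1
  have htop : (⊤ : Subgroup G) ≤ normalizer ((DD (P := P) (K := K) hT : Subgroup G) : Set G) := by
    rw [← h]
    exact sup_le (key K hK1) (key P hP1)
  exact normalizer_eq_top_iff.1 (top_le_iff.1 htop)

/-- The use of LEME, for an abstract copy `V` of the subgroup `VV r T`. -/
theorem core (hLEME : S_LEME) [Finite G] {r : ℕ} (hr : r.Prime) (h2 : r ≠ 2)
    {P T K A : Subgroup G} (hTn : T.Normal) (hKn : K.Normal) (hTP : T ≤ P)
    (hpr : ∀ x ∈ K, ∃ m : ℕ, ¬ r ∣ m ∧ x ^ m ∈ T)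
    (hab : ∀ x ∈ K, ∀ y ∈ K, x⁻¹ * (y⁻¹ * x * y) ∈ T)
    (hfa : ∀ k ∈ K, (∀ z ∈ ZS T, z ^ r = 1 → k * z = z * k) → k ∈ T)
    (hA : IsMx r P A)
    (V : Type) [CommGroup V] [Finite V] (ι : V →* G) (hι : Function.Injective ι)
    (ρ : G →* MulAut V) (hρ : ∀ g v, ι (ρ g v) = g * ι v * g⁻¹)
    (h1 : ∀ v, ι v ∈ ZS T) (h1' : ∀ v, (ι v) ^ r = 1) (h3 : ∀ z ∈ ZS T, z ^ r = 1 → ∃ v, ι v = z) :
    ∀ a ∈ A, ∀ k ∈ K, a⁻¹ * (k⁻¹ * a * k) ∈ T := by
  have hfix : ∀ g v, g * ι v = ι v * g ↔ ρ g v = v := by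
    intro g v
    constructor
    · intro h
      apply hι
      rw [hρ, h]
      group
    · intro h
      have h4 := hρ g v
      rw [h] at h4
      calc g * ι v = g * ι v * g⁻¹ * g := by group
        _ = ι v * g := by rw [← h4]
  have hT1 : ∀ t ∈ T, ρ t = 1 := by
    intro t ht
    ext v
    rw [(hfix t v).1 ((mem_ZS.1 (h1 v)).2 t ht)]
    rfl
  have hK1 : ∀ k ∈ K, ρ k = 1 → k ∈ T := by
    intro k hk hk1
    refine hfa k hk (fun z hz hz1 => ?_)
    obtain ⟨v, rfl⟩ := h3 z hz hz1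
    rw [hfix, hk1]
    rfl
  have hL := hLEME V r hr h2 (fun v => hι (by rw [map_pow, h1', map_one])) (A.map ρ) (K.map ρ)
    (by
      rintro _ ⟨a, ha, rfl⟩ _ ⟨b, hb, rfl⟩
      rw [← map_mul, ← map_mul, hA.2.1.2 a ha b hb])
    (by
      rintro _ ⟨a, ha, rfl⟩
      rw [← map_pow, hA.2.1.1 a ha, map_one])
    (by
      rintro _ ⟨x, hx, rfl⟩ _ ⟨y, hy, rfl⟩
      have h4 := hT1 _ (hab x hx y hy)
      rw [map_mul, map_mul, map_mul, map_inv, map_inv] at h4
      have h5 : (ρ y)⁻¹ * ρ x * ρ y = ρ x := (inv_mul_eq_one.1 h4).symm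
      calc ρ x * ρ y = ρ y * ((ρ y)⁻¹ * ρ x * ρ y) := by group
        _ = ρ y * ρ x := by rw [h5])
    (by
      intro hd
      haveI : Fact r.Prime := ⟨hr⟩
      obtain ⟨q, hq⟩ := exists_prime_orderOf_dvd_card' (G := K.map ρ) r hd
      obtain ⟨k, hk, hkq⟩ := q.2
      obtain ⟨m, hm, hkm⟩ := hpr k hk
      apply hm
      have h4 := hT1 _ hkm
      rw [map_pow] at h4
      rw [← hq, ← Subgroup.orderOf_coe, ← hkq]
      exact orderOf_dvd_of_pow_eq_one h4)
    (by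
      rintro _ ⟨a, ha, rfl⟩ _ ⟨k, hk, rfl⟩
      refine ⟨a⁻¹ * k * a, ?_, ?_⟩
      · have := hKn.conj_mem k hk a⁻¹
        rwa [inv_inv] at this
      · rw [map_mul, map_mul, map_inv])
    (by
      intro B' hB' hcard
      let B : Subgroup G := A ⊓ B'.comap ρ
      have hBA : B ≤ A := inf_le_left
      have hBB' : ∀ b ∈ B, ρ b ∈ B' := fun b hb => (mem_inf.1 hb).2
      have hcB : Nat.card A = r * Nat.card B := by
        have e1 : Nat.card B' * B'.relIndex (A.map ρ) = Nat.card (A.map ρ) := by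
          rw [← relIndex_bot_left, ← relIndex_bot_left]
          exact relIndex_mul_relIndex _ _ _ bot_le hB'
        have e2 : Nat.card B * B.relIndex A = Nat.card A := by
          rw [← relIndex_bot_left, ← relIndex_bot_left]
          exact relIndex_mul_relIndex _ _ _ bot_le hBA
        have e3 : B.relIndex A = B'.relIndex (A.map ρ) := by
          rw [← relIndex_comap]
          exact inf_relIndex_left _ _
        have e4 : B'.relIndex (A.map ρ) = r := by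
          have hpos : 0 < Nat.card B' := Nat.card_pos
          rw [hcard, mul_comm] at e1
          exact Nat.eq_of_mul_eq_mul_right hpos e1
        rw [← e2, e3, e4, mul_comm]
      let F' : Subgroup V :=
        { carrier := {v | ∀ b ∈ B', b v = v}
          one_mem' := fun b _ => map_one b
          mul_mem' := by
            intro v w hv hw b hb
            rw [map_mul, hv b hb, hw b hb]
          inv_mem' := by
            intro v hv b hb
            rw [map_inv, hv b hb] }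
      have hcomm : ∀ w ∈ F'.map ι, ∀ b ∈ B, w * b = b * w := by
        rintro _ ⟨v, hv, rfl⟩ b hb
        exact ((hfix b v).2 (hv _ (hBB' b hb))).symm
      have hEW : EA r (F'.map ι) := by
        constructor
        · rintro _ ⟨v, _, rfl⟩
          exact h1' v
        · rintro _ ⟨v, _, rfl⟩ _ ⟨w, _, rfl⟩
          rw [← map_mul, ← map_mul, mul_comm]
      have hEB : EA r B := ⟨fun x hx => hA.2.1.1 x (hBA hx),
        fun x hx y hy => hA.2.1.2 x (hBA hx) y (hBA hy)⟩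
      have hWP : F'.map ι ≤ P := by
        rintro _ ⟨v, _, rfl⟩
        exact hTP (mem_ZS.1 (h1 v)).1
      obtain ⟨U, hUP, hUE, hU⟩ := prod_EA hEW hEB hcomm hWP (hBA.trans hA.1)
      have hUA := hA.2.2 U hUP hUE
      have hcW : Nat.card (F'.map ι) = Nat.card {v : V // ∀ b ∈ B', b v = v} :=
        (Nat.card_congr (F'.equivMapOfInjective ι hι).toEquiv).symm
      have hcI : Nat.card (F'.map ι ⊓ B : Subgroup G) ≤
          Nat.card {v : V // ∀ a ∈ A.map ρ, a v = v} := by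
        have hx : ∀ x : (F'.map ι ⊓ B : Subgroup G), ∃ v : V, (∀ a ∈ A.map ρ, a v = v) ∧
            ι v = x := by
          intro x
          obtain ⟨v, _, hv⟩ := (mem_inf.1 x.2).1
          refine ⟨v, ?_, hv⟩
          rintro _ ⟨a, ha, rfl⟩
          rw [← hfix, hv]
          exact hA.2.1.2 a ha x (hBA (mem_inf.1 x.2).2)
        choose f hf1 hf2 using hx
        apply Nat.card_le_card_of_injective
          (fun x => (⟨f x, hf1 x⟩ : {v : V // ∀ a ∈ A.map ρ, a v = v}))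
        intro x y hxy
        have h4 : f x = f y := congrArg Subtype.val hxy
        apply Subtype.ext
        rw [← hf2 x, ← hf2 y, h4]
      have hpos : 0 < Nat.card B := Nat.card_pos
      rw [← hcW]
      have h5 : Nat.card (F'.map ι) * Nat.card B ≤
          (r * Nat.card {v : V // ∀ a ∈ A.map ρ, a v = v}) * Nat.card B := by
        calc Nat.card (F'.map ι) * Nat.card B
            ≤ Nat.card U * Nat.card (F'.map ι ⊓ B : Subgroup G) := hU
          _ ≤ Nat.card A * Nat.card {v : V // ∀ a ∈ A.map ρ, a v = v} :=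
              Nat.mul_le_mul hUA hcI
          _ = (r * Nat.card {v : V // ∀ a ∈ A.map ρ, a v = v}) * Nat.card B := by
              rw [hcB]; ring
      exact Nat.le_of_mul_le_mul_right h5 hpos)
  intro a ha k hk
  have h4 := hL (ρ a) ⟨a, ha, rfl⟩ (ρ k) ⟨k, hk, rfl⟩
  have e : a⁻¹ * (k⁻¹ * a * k) = (a⁻¹ * k⁻¹ * a⁻¹⁻¹) * k := by group
  apply hK1
  · rw [e]
    exact mul_mem (hKn.conj_mem _ (inv_mem hk) _) hk
  · rw [map_mul, map_mul, map_mul, map_inv, map_inv, mul_assoc, h4]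
    group

end aux

theorem t (hLEME : S_LEME) (hJP : S_JP) (hMC2 : S_MC2) (hMC3 : S_MC3) (hMC4 : S_MC4) :
    Pool.Agent.Helper52.SG.S_MC5 := by
  intro G _ r P T K h k
  haveI := h.fin
  obtain ⟨hTP, -, -, hKP⟩ := hMC2 G r P T K h k
  have hTn : T.Normal := k.or.1
  have hKn : K.Normal := k.nor
  have claim : ∀ A : Subgroup G, IsMx r P A → A ≤ T := by
    intro A hA
    haveI := VV_normal hTn r
    letI cg : CommGroup (VV r T) :=
      { (inferInstance : Group (VV r T)) with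
        mul_comm := fun a b => Subtype.ext (by
          have hb := (mem_ZS.1 (mem_VV.1 b.2).1).2 a (mem_ZS.1 (mem_VV.1 a.2).1).1
          exact hb) }
    have hcore := core hLEME h.hr h.h2 hTn hKn hTP k.pr (hMC3 G r P T K h k) (hMC4 G r P T K h k)
      hA (VV r T) (VV r T).subtype Subtype.val_injective MulAut.conjNormal
      (fun g v => rfl) (fun v => (mem_VV.1 v.2).1) (fun v => (mem_VV.1 v.2).2)
      (fun z hz hz1 => ⟨⟨z, mem_VV.2 ⟨hz, hz1⟩⟩, rfl⟩)
    have hDn := DD_normal hTn hTP hKn hKP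
    have hDP : DD (P := P) (K := K) hTn ≤ P := fun g hg => (mem_DD.1 hg).1
    have hDT := k.or.2.2 _ hDn (h.pg.to_le hDP)
    intro a ha
    exact hDT (mem_DD.2 ⟨hA.1 ha, hcore a ha⟩)
  have hJT : JJ r P ≤ T := sSup_le claim
  obtain ⟨-, -, -, hJ4, -, -⟩ := hJP G r h.hr P
  obtain ⟨-, -, -, -, -, hJ6⟩ := hJP G r h.hr T
  have hJTP : JJ r T = JJ r P := hJ4 T hTP hJT
  have hn : normalizer ((JJ r P : Subgroup G) : Set G) = ⊤ := by
    rw [eq_top_iff]
    intro g _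
    rw [mem_normalizer_iff_cj, ← hJTP, ← hJ6 g]
    congr 1
    ext x
    rw [mem_cj]
    constructor
    · intro hx
      have := hTn.conj_mem _ hx g⁻¹
      have e : g⁻¹ * (g * x * g⁻¹) * g⁻¹⁻¹ = x := by group
      rwa [e] at this
    · exact fun hx => hTn.conj_mem x hx g
  have hJ := h.hJ
  rw [hn] at hJ
  exact h.bad hJ

end Pool.Agent.Helper71.SG.MC5
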